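import Pool.Agent.Lib.MP_542e45_an.Main

/-!
The Rayleigh beam - heat transmission system is exponentially stable for every admissible choice
of the parameters.  In particular neither `t⁻²` (Q1) nor `t⁻¹` (Q2) is an optimal decay rate.
-/

open Pool.Agent.Lib.MP_542e45_an

/-- For all admissible parameters there are `M, ω > 0` such that every solution with initial state
in the domain of the generator satisfies `E(t) ≤ M e^{-ω t} E(0)` for all `t ≥ 0`. -/
theorem Pool.Agent.Results.MP_542e45_an.ExponentialStability.result (P : Params) :
    ∃ M ω : ℝ, 0 < M ∧ 0 < ω ∧ ∀ Φ Ψ : ℝ → Fields, IsSolution P Φ Ψ →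
      ∀ t, 0 ≤ t → energy P (Φ t) ≤ M * Real.exp (-ω * t) * energy P (Φ 0) :=
  exponential_stability P
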